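import Mathlib

/-!
Two-element algebras whose operations need not be everywhere defined, and the least size `d A n`
of a generating set of the power `A ^ n`.

For every `m ≥ 1` we construct such an algebra with
`log₂ (n.choose m) ≤ d A n ≤ m * ⌈log₂ n⌉` for all `n ≥ 1`, so `d A n = m * log₂ n + O(1)`.
Hence no constant works for all algebras in the logarithmic alternative, and every positive
integer is the leading constant of such an algebra.
-/

namespace Pool.Agent.Results.MP_73a90e_al.LogarithmicConstants

/-- An algebra on the two-element set `Bool` whose operations need not be defined everywhere: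
`op i` has arity `ar i` and is defined at `s` iff `op i s ≠ none`.  No restriction is placed on
the index set `I` of the signature. -/
structure PAlg where
  /-- index set of the signature -/
  I : Type
  /-- arities -/
  ar : I → ℕ
  /-- operations; the value `none` means undefined -/
  op : (i : I) → (Fin (ar i) → Bool) → Option Bool

/-- `S ⊆ A ^ n` is closed: it contains the value of every operation at arguments from `S`,
whenever that value is defined in each of the `n` coordinates. -/
def IsClosedIn (A : PAlg) (n : ℕ) (S : Set (Fin n → Bool)) : Prop :=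
  ∀ (i : A.I) (a : Fin (A.ar i) → Fin n → Bool) (b : Fin n → Bool),
    (∀ j, a j ∈ S) → (∀ c, A.op i (fun j => a j c) = some (b c)) → b ∈ S

/-- `X` generates `A ^ n`: the only closed set containing `X` is everything. -/
def Generates (A : PAlg) (n : ℕ) (X : Set (Fin n → Bool)) : Prop :=
  ∀ S : Set (Fin n → Bool), IsClosedIn A n S → X ⊆ S → S = Set.univ

/-- The least size of a generating set of `A ^ n`. -/
noncomputable def d (A : PAlg) (n : ℕ) : ℕ :=
  sInf {k | ∃ X : Finset (Fin n → Bool), X.card = k ∧ Generates A n (X : Set (Fin n → Bool))}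

/-- Booleans as elements of `ZMod 2`. -/
def z (b : Bool) : ZMod 2 := if b then 1 else 0

/-- No nonempty subset of `D` of even size at most `2 * m` has sum zero. -/
def Indep (m k : ℕ) (D : Set (Fin k → Bool)) : Prop :=
  ∀ T : Finset (Fin k → Bool), (T : Set (Fin k → Bool)) ⊆ D → T.card ≤ 2 * m → Even T.card →
    (∀ j, ∑ s ∈ T, z (s j) = 0) → T = ∅

/-- All operations whose domain is independent. -/
def alg (m : ℕ) : PAlg where
  I := Σ k : ℕ, {f : (Fin k → Bool) → Option Bool // Indep m k {s | f s ≠ none}}
  ar := fun i => i.1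
  op := fun i => i.2.1

lemma z_injective : Function.Injective z := by
  intro a b h
  cases a <;> cases b <;> simp [z] at h ⊢

lemma zmod2_add_self (x : ZMod 2) : x + x = 0 := by
  have : (2 : ZMod 2) = 0 := by decide
  calc x + x = 2 * x := by ring
    _ = 0 := by rw [this, zero_mul]

lemma nsmul_zmod2 (k : ℕ) (x : ZMod 2) : k • x = if Odd k then x else 0 := by
  by_cases h : Odd k
  · obtain ⟨r, rfl⟩ := h
    simp only [Nat.odd_iff, if_pos (show (2 * r + 1) % 2 = 1 by omega)]
    rw [add_smul, one_smul, mul_comm, mul_smul, two_smul, zmod2_add_self, smul_zero, zero_add]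
  · rw [if_neg h]
    rw [Nat.not_odd_iff_even] at h
    obtain ⟨r, rfl⟩ := h
    rw [add_smul]
    exact zmod2_add_self _

open Classical in
/-- The main computation: sums over `Λ` of a function of `y` only see odd fibres. -/
lemma sum_fibres {n k : ℕ} (Λ : Finset (Fin n)) (y : Fin n → (Fin k → Bool))
    (h : (Fin k → Bool) → ZMod 2) :
    ∑ c ∈ Λ, h (y c) =
      ∑ s ∈ (Λ.image y).filter (fun s => Odd (Λ.filter (fun c => y c = s)).card), h s := by
  rw [Finset.sum_filter]
  rw [← Finset.sum_fiberwise_of_maps_to (s := Λ) (t := Λ.image y) (g := y)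
    (fun c hc => Finset.mem_image_of_mem y hc)]
  refine Finset.sum_congr rfl (fun s _ => ?_)
  have h1 : ∑ c ∈ Λ.filter (fun c => y c = s), h (y c)
      = ∑ c ∈ Λ.filter (fun c => y c = s), h s := by
    refine Finset.sum_congr rfl (fun c hc => ?_)
    rw [(Finset.mem_filter.1 hc).2]
  rw [h1, Finset.sum_const, nsmul_zmod2]

open Classical in
/-- Parity on a small even set is preserved by all operations of `alg m`. -/
lemma parity_closed (m n : ℕ) (Λ : Finset (Fin n)) (hΛ : Λ.card ≤ 2 * m) (hev : Even Λ.card) :
    IsClosedIn (alg m) n {f | ∑ c ∈ Λ, z (f c) = 0} := by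
  rintro ⟨k, f, hf⟩ a b ha hb
  change ∀ c, f (fun j => a j c) = some (b c) at hb
  set y : Fin n → (Fin k → Bool) := fun c j => a j c with hy
  set T := (Λ.image y).filter (fun s => Odd (Λ.filter (fun c => y c = s)).card) with hT
  have hTe : T = ∅ := by
    apply hf T
    · intro s hs
      have hs' : s ∈ T := hs
      rw [hT, Finset.mem_filter, Finset.mem_image] at hs'
      obtain ⟨⟨c, _, rfl⟩, _⟩ := hs'
      change f (y c) ≠ none
      rw [hy]
      rw [hb c]
      simp
    · exact ((Finset.card_filter_le _ _).trans Finset.card_image_le).trans hΛ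
    · have h1 := sum_fibres Λ y (fun _ => 1)
      rw [Finset.sum_const, Finset.sum_const, nsmul_zmod2, nsmul_zmod2] at h1
      rw [if_neg (Nat.not_odd_iff_even.2 hev)] at h1
      by_contra hcon
      rw [Nat.not_even_iff_odd] at hcon
      rw [if_pos hcon] at h1
      exact absurd h1 (by decide)
    · intro j
      have h1 := sum_fibres Λ y (fun s => z (s j))
      rw [← h1]
      exact ha j
  have h2 := sum_fibres Λ y (fun s => z ((f s).getD false))
  rw [← hT, hTe, Finset.sum_empty] at h2
  change ∑ c ∈ Λ, z (b c) = 0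
  rw [← h2]
  refine Finset.sum_congr rfl (fun c _ => ?_)
  rw [hy]
  simp only [hb c, Option.getD_some]

open Classical in
/-- Pigeonhole: a generating set of size `g` forces `n.choose m ≤ 2 ^ g`. -/
lemma choose_le_of_generates (m n : ℕ) (X : Finset (Fin n → Bool))
    (hX : Generates (alg m) n (X : Set (Fin n → Bool))) : n.choose m ≤ 2 ^ X.card := by
  by_contra hlt
  push Not at hlt
  have hcard : (Finset.univ : Finset (X → ZMod 2)).card
      < ((Finset.univ : Finset (Fin n)).powersetCard m).card := by
    rw [Finset.card_powersetCard, Finset.card_univ, Finset.card_univ, Fintype.card_fin,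
      Fintype.card_fun, ZMod.card, Fintype.card_coe]
    exact hlt
  obtain ⟨P, hP, Q, hQ, hPQ, heq⟩ := Finset.exists_ne_map_eq_of_card_lt_of_maps_to hcard
    (f := fun P : Finset (Fin n) => fun x : X => ∑ c ∈ P, z (x.1 c))
    (fun P _ => Finset.mem_coe.2 (Finset.mem_univ _))
  rw [Finset.mem_powersetCard] at hP hQ
  have hdisj : Disjoint (P \ Q) (Q \ P) := by
    rw [Finset.disjoint_left]
    intro c hc hc'
    rw [Finset.mem_sdiff] at hc hc'
    exact hc.2 hc'.1
  have hc1 : (P \ Q).card + (P ∩ Q).card = m := by
    rw [Finset.card_sdiff_add_card_inter]; exact hP.2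
  have hc2 : (Q \ P).card + (Q ∩ P).card = m := by
    rw [Finset.card_sdiff_add_card_inter]; exact hQ.2
  rw [Finset.inter_comm Q P] at hc2
  set Λ := (P \ Q) ∪ (Q \ P) with hΛ
  have hΛc : Λ.card = 2 * (P \ Q).card := by
    rw [hΛ, Finset.card_union_of_disjoint hdisj]
    omega
  have hcl := parity_closed m n Λ (by omega) ⟨(P \ Q).card, by omega⟩
  have hsum : ∀ x : Fin n → Bool, ∑ c ∈ P, z (x c) = ∑ c ∈ Q, z (x c) →
      ∑ c ∈ Λ, z (x c) = 0 := by
    intro x hx
    rw [hΛ, Finset.sum_union hdisj]
    have e1 : ∑ c ∈ P \ Q, z (x c) + ∑ c ∈ P ∩ Q, z (x c) = ∑ c ∈ P, z (x c) := by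
      rw [add_comm]; exact Finset.sum_inter_add_sum_sdiff P Q _
    have e2 : ∑ c ∈ Q \ P, z (x c) + ∑ c ∈ P ∩ Q, z (x c) = ∑ c ∈ Q, z (x c) := by
      rw [add_comm, Finset.inter_comm]; exact Finset.sum_inter_add_sum_sdiff Q P _
    have e3 : ∑ c ∈ P \ Q, z (x c) = ∑ c ∈ Q \ P, z (x c) := by
      have := e1.trans (hx.trans e2.symm)
      exact add_right_cancel this
    rw [e3]
    exact zmod2_add_self _
  have huniv := hX _ hcl (by
    intro x hx
    exact hsum x (congrFun heq ⟨x, hx⟩))
  have hne : Λ.Nonempty := by
    rw [Finset.nonempty_iff_ne_empty]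
    intro h0
    apply hPQ
    have h00 : (P \ Q) = ∅ ∧ (Q \ P) = ∅ := by
      rw [hΛ, Finset.union_eq_empty] at h0
      exact h0
    exact Finset.Subset.antisymm (Finset.sdiff_eq_empty_iff_subset.1 h00.1)
      (Finset.sdiff_eq_empty_iff_subset.1 h00.2)
  obtain ⟨c0, hc0⟩ := hne
  have hmem : (fun c => decide (c = c0)) ∈ {f : Fin n → Bool | ∑ c ∈ Λ, z (f c) = 0} := by
    rw [huniv]; exact Set.mem_univ _
  have hone : ∑ c ∈ Λ, z (decide (c = c0)) = 1 := by
    rw [Finset.sum_eq_single c0]
    · simp [z]
    · intro c _ hc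
      simp [z, hc]
    · intro h
      exact absurd hc0 h
  have hzero : ∑ c ∈ Λ, z (decide (c = c0)) = 0 := hmem
  rw [hone] at hzero
  exact absurd hzero (by decide)

/-- The inverse of `z`. -/
def tb (u : ZMod 2) : Bool := decide (u = 1)

lemma z_tb (u : ZMod 2) : z (tb u) = u := by
  revert u; decide

/-- Over a field of characteristic two, a nonempty finite set of even size at most `2 * m` cannot
have all its odd power sums up to `2 * m - 1` equal to zero (the BCH bound). -/
lemma power_sums {K : Type} [Field K] [CharP K 2] [DecidableEq K] (m : ℕ) (T : Finset K)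
    (hc : T.card ≤ 2 * m) (he : Even T.card)
    (h : ∀ a, a < m → ∑ x ∈ T, x ^ (2 * a + 1) = 0) : T = ∅ := by
  haveI : Fact (Nat.Prime 2) := ⟨Nat.prime_two⟩
  have hall : ∀ j, j ≤ 2 * m → ∑ x ∈ T, x ^ j = 0 := by
    intro j
    induction j using Nat.strong_induction_on with
    | _ j ih =>
      intro hj
      rcases Nat.even_or_odd j with hev | hodd
      · obtain ⟨i, hi⟩ := hev
        rcases Nat.eq_zero_or_pos i with h0 | hpos
        · have hj0 : j = 0 := by omega
          subst hj0
          simp only [pow_zero, Finset.sum_const, nsmul_eq_mul, mul_one]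
          exact (CharP.cast_eq_zero_iff K 2 T.card).2 he.two_dvd
        · have h1 := ih i (by omega) (by omega)
          have h2 := sum_pow_char 2 T (fun x => x ^ i)
          rw [h1] at h2
          have h3 : ∑ x ∈ T, x ^ j = ∑ x ∈ T, (x ^ i) ^ 2 := by
            refine Finset.sum_congr rfl (fun x _ => ?_)
            rw [← pow_mul]
            congr 1
            omega
          rw [h3, ← h2]
          exact zero_pow two_ne_zero
      · obtain ⟨a, ha⟩ := hodd
        rw [ha]
        exact h a (by omega)
  have hpoly : ∀ p : Polynomial K, p.natDegree < 2 * m + 1 → ∑ x ∈ T, p.eval x = 0 := by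
    intro p hp
    have h1 : ∑ x ∈ T, p.eval x
        = ∑ x ∈ T, ∑ i ∈ Finset.range (2 * m + 1), p.coeff i * x ^ i :=
      Finset.sum_congr rfl (fun x _ => Polynomial.eval_eq_sum_range' hp x)
    rw [h1, Finset.sum_comm]
    refine Finset.sum_eq_zero (fun i hi => ?_)
    rw [← Finset.mul_sum, hall i (by rw [Finset.mem_range] at hi; omega), mul_zero]
  by_contra hne
  obtain ⟨x0, hx0⟩ := Finset.nonempty_iff_ne_empty.2 hne
  have hdeg : (∏ y ∈ T.erase x0, (Polynomial.X - Polynomial.C y)).natDegree < 2 * m + 1 := by
    rw [Polynomial.natDegree_finsetProd_X_sub_C_eq_card, Finset.card_erase_of_mem hx0]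
    omega
  have h0 := hpoly _ hdeg
  rw [Finset.sum_eq_single x0] at h0
  · rw [Polynomial.eval_prod, Finset.prod_eq_zero_iff] at h0
    obtain ⟨y, hy, hyx⟩ := h0
    rw [Polynomial.eval_sub, Polynomial.eval_X, Polynomial.eval_C, sub_eq_zero] at hyx
    exact (Finset.ne_of_mem_erase hy) hyx.symm
  · intro x hx hxx0
    rw [Polynomial.eval_prod, Finset.prod_eq_zero_iff]
    exact ⟨x, Finset.mem_erase.2 ⟨hxx0, hx⟩, by simp⟩
  · intro hx
    exact absurd hx0 hx

open Classical in
/-- Large independent sets from BCH codes. -/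
lemma exists_indep (m r : ℕ) (hm : 1 ≤ m) :
    ∃ D : Finset (Fin (m * r) → Bool), Indep m (m * r) (D : Set (Fin (m * r) → Bool)) ∧
      2 ^ r ≤ D.card := by
  rcases Nat.eq_zero_or_pos r with hr | hr
  · subst hr
    refine ⟨{fun _ => true}, ?_, by simp⟩
    intro T hT _ he _
    rw [Finset.coe_subset, Finset.subset_singleton_iff] at hT
    rcases hT with h | h
    · exact h
    · rw [h, Finset.card_singleton] at he
      exact absurd he (by decide)
  · haveI : Fact (Nat.Prime 2) := ⟨Nat.prime_two⟩
    let K := GaloisField 2 r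
    haveI : Fintype K := Fintype.ofFinite K
    have hcardK : Fintype.card K = 2 ^ r := by
      rw [← Nat.card_eq_fintype_card]
      exact GaloisField.card 2 r hr.ne'
    let B : Module.Basis (Fin r) (ZMod 2) K :=
      Module.finBasisOfFinrankEq (ZMod 2) K (GaloisField.finrank 2 hr.ne')
    let φ : K → (Fin (m * r) → Bool) := fun x i =>
      tb (B.repr (x ^ (2 * (finProdFinEquiv.symm i).1.1 + 1)) (finProdFinEquiv.symm i).2)
    have hφ : ∀ (x : K) (a : Fin m) (b : Fin r),
        z (φ x (finProdFinEquiv (a, b))) = B.repr (x ^ (2 * a.1 + 1)) b := by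
      intro x a b
      change z (tb _) = _
      rw [z_tb, Equiv.symm_apply_apply]
    have hinj : Function.Injective φ := by
      intro x y hxy
      have h1 : B.repr x = B.repr y := by
        ext b
        have h2 := hφ x ⟨0, hm⟩ b
        have h3 := hφ y ⟨0, hm⟩ b
        rw [hxy, h3] at h2
        simpa using h2.symm
      exact B.repr.injective h1
    refine ⟨Finset.univ.image φ, ?_, ?_⟩
    · intro T hT hc he hz
      set T' : Finset K := Finset.univ.filter (fun x => φ x ∈ T) with hT'
      have hTT : T'.image φ = T := by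
        ext s
        rw [Finset.mem_image]
        constructor
        · rintro ⟨x, hx, rfl⟩
          exact (Finset.mem_filter.1 hx).2
        · intro hs
          have := Finset.mem_image.1 (Finset.coe_subset.1 hT hs)
          obtain ⟨x, _, rfl⟩ := this
          exact ⟨x, Finset.mem_filter.2 ⟨Finset.mem_univ _, hs⟩, rfl⟩
      have hcT : T'.card = T.card := by
        rw [← hTT, Finset.card_image_of_injective _ hinj]
      have hT0 : T' = ∅ := by
        apply power_sums m T' (by omega) (by rw [hcT]; exact he)
        intro a ha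
        apply B.repr.injective
        rw [map_sum, map_zero]
        ext b
        rw [Finsupp.finsetSum_apply, Finsupp.zero_apply]
        have h1 := hz (finProdFinEquiv (⟨a, ha⟩, b))
        rw [← hTT, Finset.sum_image (fun x _ y _ hxy => hinj hxy)] at h1
        rw [← h1]
        refine Finset.sum_congr rfl (fun x _ => ?_)
        rw [hφ]
      rw [← hTT, hT0, Finset.image_empty]
    · rw [Finset.card_image_of_injective _ hinj, Finset.card_univ, hcardK]

lemma Indep.mono {m k : ℕ} {D E : Set (Fin k → Bool)} (h : Indep m k D) (hE : E ⊆ D) :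
    Indep m k E := fun T hT => h T (hT.trans hE)

open Classical in
/-- An independent set of size at least `n` in `{0,1} ^ g` gives `g` generators. -/
lemma d_le_of_indep (m n g : ℕ) (D : Finset (Fin g → Bool))
    (hD : Indep m g (D : Set (Fin g → Bool))) (hn : n ≤ D.card) : d (alg m) n ≤ g := by
  have hemb : Nonempty (Fin n ↪ D) := by
    rw [Function.Embedding.nonempty_iff_card_le, Fintype.card_fin, Fintype.card_coe]
    exact hn
  obtain ⟨e⟩ := hemb
  set x : Fin g → (Fin n → Bool) := fun j c => (e c).1 j with hx
  have hgen : Generates (alg m) n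
      ((Finset.univ.image x : Finset (Fin n → Bool)) : Set (Fin n → Bool)) := by
    intro S hS hXS
    rw [Set.eq_univ_iff_forall]
    intro b
    let f : (Fin g → Bool) → Option Bool := fun s =>
      if h : ∃ c, (e c).1 = s then some (b h.choose) else none
    have hf : Indep m g {s | f s ≠ none} := by
      apply hD.mono
      intro s hs
      by_contra hcon
      apply hs
      change (if h : ∃ c, (e c).1 = s then some (b h.choose) else none) = none
      rw [dif_neg]
      rintro ⟨c, rfl⟩
      exact hcon (e c).2
    refine hS ⟨g, f, hf⟩ x b (fun j => hXS ?_) (fun c => ?_)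
    · rw [Finset.coe_image, Finset.coe_univ, Set.image_univ]
      exact ⟨j, rfl⟩
    · change f (fun j => (e c).1 j) = some (b c)
      have hex : ∃ c', (e c').1 = (fun j => (e c).1 j) := ⟨c, rfl⟩
      change (if h : ∃ c', (e c').1 = (fun j => (e c).1 j) then some (b h.choose) else none)
        = some (b c)
      rw [dif_pos hex]
      have h1 := hex.choose_spec
      have h2 : e hex.choose = e c := Subtype.ext h1
      rw [e.injective h2]
  have h1 : d (alg m) n ≤ (Finset.univ.image x).card :=
    Nat.sInf_le ⟨_, rfl, hgen⟩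
  refine h1.trans (Finset.card_image_le.trans ?_)
  rw [Finset.card_univ, Fintype.card_fin]

lemma generates_univ (A : PAlg) (n : ℕ) :
    Generates A n ((Finset.univ : Finset (Fin n → Bool)) : Set (Fin n → Bool)) := by
  intro S _ hS
  rw [Finset.coe_univ] at hS
  exact Set.univ_subset_iff.1 hS

lemma d_spec (A : PAlg) (n : ℕ) : ∃ X : Finset (Fin n → Bool), X.card = d A n ∧
    Generates A n (X : Set (Fin n → Bool)) :=
  Nat.sInf_mem (s := {k | ∃ X : Finset (Fin n → Bool), X.card = k ∧
    Generates A n (X : Set (Fin n → Bool))}) ⟨_, Finset.univ, rfl, generates_univ A n⟩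

/-- **Theorem.** For every `m ≥ 1` there is a two-element algebra (operations need not be
everywhere defined) such that `log₂ (n.choose m) ≤ d(n) ≤ m * ⌈log₂ n⌉` for all `n ≥ 1`; in
particular `d(n) / log₂ n` tends to `m`. -/
theorem result (m : ℕ) (hm : 1 ≤ m) : ∃ A : PAlg, ∀ n : ℕ, 1 ≤ n →
    n.choose m ≤ 2 ^ d A n ∧ d A n ≤ m * Nat.clog 2 n := by
  refine ⟨alg m, fun n _ => ⟨?_, ?_⟩⟩
  · obtain ⟨X, hXc, hX⟩ := d_spec (alg m) n
    rw [← hXc]
    exact choose_le_of_generates m n X hX
  · obtain ⟨D, hD, hcard⟩ := exists_indep m (Nat.clog 2 n) hm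
    exact d_le_of_indep m n _ D hD ((Nat.le_pow_clog (by norm_num) n).trans hcard)

end Pool.Agent.Results.MP_73a90e_al.LogarithmicConstants
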